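import Pool.Agent.Helper80.HG.StL

/-!
Project HG (MP_1bacb5_al), part L, module EB: adjoining the exponential of a primitive to a Hardy field.
-/

set_option autoImplicit false

namespace Pool.Agent.Helper74.HG

open Pool.Agent.Helper80.HG Filter Topology

/-- the function has a sign near `+∞` -/
def Sg (f : ℝ → ℝ) : Prop :=
  (∀ᶠ x in atTop, f x = 0) ∨ (∀ᶠ x in atTop, 0 < f x) ∨ ∀ᶠ x in atTop, f x < 0

theorem Sg.congr {f g : ℝ → ℝ} (hf : Sg f) (h : ∀ᶠ x in atTop, f x = g x) : Sg g := by
  rcases hf with hf | hf | hf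
  · left
    filter_upwards [hf, h] with x h1 h2
    rw [← h2, h1]
  · right; left
    filter_upwards [hf, h] with x h1 h2
    rw [← h2]
    exact h1
  · right; right
    filter_upwards [hf, h] with x h1 h2
    rw [← h2]
    exact h1

theorem Sg.mul {f g : ℝ → ℝ} (hf : Sg f) (hg : Sg g) : Sg (fun x => f x * g x) := by
  rcases hf with hf | hf | hf
  · left
    filter_upwards [hf] with x h1
    rw [h1, zero_mul]
  · rcases hg with hg | hg | hg
    · left
      filter_upwards [hg] with x h1
      rw [h1, mul_zero]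
    · right; left
      filter_upwards [hf, hg] with x h1 h2
      exact mul_pos h1 h2
    · right; right
      filter_upwards [hf, hg] with x h1 h2
      exact mul_neg_of_pos_of_neg h1 h2
  · rcases hg with hg | hg | hg
    · left
      filter_upwards [hg] with x h1
      rw [h1, mul_zero]
    · right; right
      filter_upwards [hf, hg] with x h1 h2
      exact mul_neg_of_neg_of_pos h1 h2
    · right; left
      filter_upwards [hf, hg] with x h1 h2
      exact mul_pos_of_neg_of_neg h1 h2

theorem Sg.neg {f : ℝ → ℝ} (hf : Sg f) : Sg (fun x => -f x) := by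
  have h : Sg (fun _ : ℝ => (-1 : ℝ)) := Or.inr (Or.inr (Eventually.of_forall fun _ => by norm_num))
  exact (h.mul hf).congr (Eventually.of_forall fun x => by ring)

theorem sg_of_pos {g g' : ℝ → ℝ} (hd : ∀ᶠ x in atTop, HasDerivAt g (g' x) x)
    (hp : ∀ᶠ x in atTop, 0 < g' x) : Sg g := by
  obtain ⟨a, ha⟩ := eventually_atTop.1 (hd.and hp)
  have hmono : StrictMonoOn g (Set.Ici a) := by
    refine strictMonoOn_of_deriv_pos (convex_Ici a) ?_ ?_
    · intro x hx
      exact (ha x hx).1.continuousAt.continuousWithinAt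
    · intro x hx
      have hx' : a ≤ x := interior_subset hx
      rw [(ha x hx').1.deriv]
      exact (ha x hx').2
  by_cases hc : ∃ x0, a ≤ x0 ∧ 0 ≤ g x0
  · obtain ⟨x0, hx0, hg0⟩ := hc
    right; left
    filter_upwards [eventually_gt_atTop x0] with x hx
    exact lt_of_le_of_lt hg0 (hmono hx0 (hx0.trans hx.le) hx)
  · right; right
    filter_upwards [eventually_ge_atTop a] with x hx
    by_contra h
    exact hc ⟨x, hx, not_lt.1 h⟩

/-- a function whose derivative has a sign has a sign -/
theorem sg_of_deriv {g g' : ℝ → ℝ} (hd : ∀ᶠ x in atTop, HasDerivAt g (g' x) x) (hs : Sg g') :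
    Sg g := by
  rcases hs with hs | hs | hs
  · obtain ⟨a, ha⟩ := eventually_atTop.1 (hd.and hs)
    have hcont : ContinuousOn g (Set.Ici a) := fun x hx =>
      (ha x hx).1.continuousAt.continuousWithinAt
    have hdiff : DifferentiableOn ℝ g (interior (Set.Ici a)) := fun x hx =>
      (ha x (interior_subset hx)).1.differentiableAt.differentiableWithinAt
    have hz : ∀ x ∈ interior (Set.Ici a), deriv g x = 0 := fun x hx => by
      rw [(ha x (interior_subset hx)).1.deriv]
      exact (ha x (interior_subset hx)).2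
    have h1 : MonotoneOn g (Set.Ici a) :=
      monotoneOn_of_deriv_nonneg (convex_Ici a) hcont hdiff fun x hx => (hz x hx).ge
    have h2 : AntitoneOn g (Set.Ici a) :=
      antitoneOn_of_deriv_nonpos (convex_Ici a) hcont hdiff fun x hx => (hz x hx).le
    have hc : ∀ᶠ x in atTop, g x = g a := by
      filter_upwards [eventually_ge_atTop a] with x hx
      exact le_antisymm (h2 (Set.self_mem_Ici) hx hx) (h1 (Set.self_mem_Ici) hx hx)
    rcases lt_trichotomy (g a) 0 with h | h | h
    · right; right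
      filter_upwards [hc] with x hx
      rw [hx]; exact h
    · left
      filter_upwards [hc] with x hx
      rw [hx]; exact h
    · right; left
      filter_upwards [hc] with x hx
      rw [hx]; exact h
  · exact sg_of_pos hd hs
  · have h1 : Sg (fun x => -g x) := by
      refine sg_of_pos (g' := fun x => -g' x) ?_ ?_
      · filter_upwards [hd] with x hx
        exact hx.neg
      · filter_upwards [hs] with x hx
        linarith
    exact h1.neg.congr (Eventually.of_forall fun x => by ring)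

theorem eventually_nhds {f g : ℝ → ℝ} (h : ∀ᶠ x in atTop, f x = g x) :
    ∀ᶠ x in atTop, f =ᶠ[𝓝 x] g := by
  obtain ⟨a, ha⟩ := eventually_atTop.1 h
  filter_upwards [eventually_gt_atTop a] with x hx
  filter_upwards [Ioi_mem_nhds hx] with z hz
  exact ha z (le_of_lt hz)

section Main

variable {K : Set (ℝ → ℝ)} (hK : HK K) {y s : ℝ → ℝ} (hs : s ∈ K)
  (hy : ∀ᶠ x in atTop, 0 < y x) (hyd : ∀ᶠ x in atTop, HasDerivAt y (s x * y x) x)

include hK hs hyd in
/-- derivative of a polynomial in `y` -/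
theorem deriv_poly (n : ℕ) (a : ℕ → ℝ → ℝ) (ha : ∀ i, a i ∈ K) :
    ∃ c : ℕ → ℝ → ℝ, (∀ i, c i ∈ K) ∧ ∀ᶠ x in atTop,
      HasDerivAt (fun z => ∑ i ∈ Finset.range n, a i z * y z ^ i)
        (∑ i ∈ Finset.range n, c i x * y x ^ i) x := by
  choose a' ha' had using fun i => hK.deriv (a i) (ha i)
  refine ⟨fun i x => a' i x + (i : ℝ) * s x * a i x, ?_, ?_⟩
  · intro i
    exact hK.add _ (ha' i) _ (hK.mul _ (hK.mul _ (hK.const (i : ℝ)) _ hs) _ (ha i))
  · have hall : ∀ᶠ x in atTop, ∀ i ∈ Finset.range n, HasDerivAt (a i) (a' i x) x :=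
      (Filter.eventually_all_finset _).2 fun i _ => had i
    filter_upwards [hall, hyd] with x h1 h2
    have h3 : ∀ i ∈ Finset.range n, HasDerivAt (fun z => a i z * y z ^ i)
        ((a' i x + (i : ℝ) * s x * a i x) * y x ^ i) x := by
      intro i hi
      have h4 := (h1 i hi).mul (h2.pow i)
      have e : (a' i x + (i : ℝ) * s x * a i x) * y x ^ i =
          a' i x * y x ^ i + a i x * (↑i * y x ^ (i - 1) * (s x * y x)) := by
        rcases Nat.eq_zero_or_pos i with h0 | h0
        · subst h0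
          simp
        · obtain ⟨j, rfl⟩ : ∃ j, i = j + 1 := ⟨i - 1, by omega⟩
          rw [Nat.add_sub_cancel]
          ring
      rw [e]
      exact h4
    have := HasDerivAt.fun_sum h3
    exact this

include hK hs hy hyd in
/-- polynomials in `y` have signs -/
theorem sg_poly (n : ℕ) : ∀ a : ℕ → ℝ → ℝ, (∀ i, a i ∈ K) →
    Sg (fun x => ∑ i ∈ Finset.range n, a i x * y x ^ i) := by
  induction n with
  | zero =>
    intro a _
    left
    exact Eventually.of_forall fun x => by simp
  | succ n ih =>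
    intro a ha
    have hysg : Sg y := Or.inr (Or.inl hy)
    have hsplit : ∀ (b : ℕ → ℝ → ℝ) (x : ℝ), ∑ i ∈ Finset.range (n + 1), b i x * y x ^ i =
        b 0 x + y x * ∑ i ∈ Finset.range n, b (i + 1) x * y x ^ i := by
      intro b x
      rw [Finset.sum_range_succ', Finset.mul_sum, pow_zero, mul_one, add_comm]
      congr 1
      refine Finset.sum_congr rfl fun i _ => ?_
      ring
    by_cases h0 : ∀ᶠ x in atTop, a 0 x = 0
    · refine (hysg.mul (ih (fun i => a (i + 1)) fun i => ha (i + 1))).congr ?_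
      filter_upwards [h0] with x hx
      rw [hsplit, hx, zero_add]
    · have hne : ∀ᶠ x in atTop, a 0 x ≠ 0 := by
        rcases hK.sign (a 0) (ha 0) with h | h | h
        · exact absurd h h0
        · filter_upwards [h] with x hx
          exact hx.ne'
        · filter_upwards [h] with x hx
          exact hx.ne
      let b : ℕ → ℝ → ℝ := fun i x => a i x * (a 0 x)⁻¹
      have hb : ∀ i, b i ∈ K := fun i => hK.mul _ (ha i) _ (hK.inv _ (ha 0))
      -- the derivative of `y * ∑ b (i+1) y^i`
      obtain ⟨c, hc, hcd⟩ := deriv_poly hK hs hyd n (fun i => b (i + 1)) (fun i => hb (i + 1))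
      have hg : Sg (fun x => 1 + y x * ∑ i ∈ Finset.range n, b (i + 1) x * y x ^ i) := by
        refine sg_of_deriv (g' := fun x => y x *
          ∑ i ∈ Finset.range n, (s x * b (i + 1) x + c i x) * y x ^ i) ?_ ?_
        · filter_upwards [hcd, hyd] with x h1 h2
          have h3 := (h2.mul h1).const_add (1 : ℝ)
          have e : y x * ∑ i ∈ Finset.range n, (s x * b (i + 1) x + c i x) * y x ^ i =
              s x * y x * ∑ i ∈ Finset.range n, b (i + 1) x * y x ^ i +
                y x * ∑ i ∈ Finset.range n, c i x * y x ^ i := by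
            simp only [add_mul, Finset.sum_add_distrib, mul_add, Finset.mul_sum]
            congr 1
            refine Finset.sum_congr rfl fun i _ => ?_
            ring
          rw [e]
          exact h3
        · exact hysg.mul (ih (fun i x => s x * b (i + 1) x + c i x) fun i =>
            hK.add _ (hK.mul _ hs _ (hb (i + 1))) _ (hc i))
      have h0sg : Sg (a 0) := hK.sign (a 0) (ha 0)
      refine (h0sg.mul hg).congr ?_
      filter_upwards [hne] with x hx
      rw [hsplit, mul_add, mul_one]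
      congr 1
      simp only [b, Finset.mul_sum]
      refine Finset.sum_congr rfl fun i _ => ?_
      field_simp

end Main

/-- the ring generated by `K` and `y` -/
def Rg (K : Set (ℝ → ℝ)) (y : ℝ → ℝ) : Set (ℝ → ℝ) :=
  {f | ∃ (n : ℕ) (a : ℕ → ℝ → ℝ), (∀ i, a i ∈ K) ∧
    ∀ᶠ x in atTop, f x = ∑ i ∈ Finset.range n, a i x * y x ^ i}

theorem Rg_congr {K : Set (ℝ → ℝ)} {y : ℝ → ℝ} {f g : ℝ → ℝ} (hf : f ∈ Rg K y)
    (h : ∀ᶠ x in atTop, f x = g x) : g ∈ Rg K y := by
  obtain ⟨n, a, ha, hfa⟩ := hf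
  refine ⟨n, a, ha, ?_⟩
  filter_upwards [hfa, h] with x h1 h2
  rw [← h2, h1]

theorem Rg_of_mem {K : Set (ℝ → ℝ)} (_hK : HK K) {y : ℝ → ℝ} {f : ℝ → ℝ} (hf : f ∈ K) :
    f ∈ Rg K y := by
  refine ⟨1, fun _ => f, fun _ => hf, Eventually.of_forall fun x => ?_⟩
  simp

theorem Rg_pad {K : Set (ℝ → ℝ)} (hK : HK K) {y : ℝ → ℝ} {n N : ℕ} (hn : n ≤ N)
    {a : ℕ → ℝ → ℝ} (ha : ∀ i, a i ∈ K) : ∃ b : ℕ → ℝ → ℝ, (∀ i, b i ∈ K) ∧
      ∀ x, ∑ i ∈ Finset.range n, a i x * y x ^ i = ∑ i ∈ Finset.range N, b i x * y x ^ i := by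
  refine ⟨fun i => if i < n then a i else fun _ => 0, ?_, ?_⟩
  · intro i
    by_cases h : i < n
    · simp only [h, if_true]
      exact ha i
    · simp only [h, if_false]
      exact hK.const 0
  · intro x
    rw [← Finset.sum_subset (Finset.range_mono hn)]
    · refine Finset.sum_congr rfl fun i hi => ?_
      simp only [Finset.mem_range.1 hi, if_true]
    · intro i _ hi
      have : ¬ i < n := fun h => hi (Finset.mem_range.2 h)
      simp only [this, if_false, zero_mul]

theorem Rg_add {K : Set (ℝ → ℝ)} (hK : HK K) {y : ℝ → ℝ} {f g : ℝ → ℝ} (hf : f ∈ Rg K y)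
    (hg : g ∈ Rg K y) : (fun x => f x + g x) ∈ Rg K y := by
  obtain ⟨n, a, ha, hfa⟩ := hf
  obtain ⟨m, b, hb, hgb⟩ := hg
  obtain ⟨a', ha', hea⟩ := Rg_pad hK (y := y) (le_max_left n m) ha
  obtain ⟨b', hb', heb⟩ := Rg_pad hK (y := y) (le_max_right n m) hb
  refine ⟨max n m, fun i x => a' i x + b' i x, fun i => hK.add _ (ha' i) _ (hb' i), ?_⟩
  filter_upwards [hfa, hgb] with x h1 h2
  rw [h1, h2, hea, heb, ← Finset.sum_add_distrib]
  refine Finset.sum_congr rfl fun i _ => ?_
  ring

theorem Rg_mul_left {K : Set (ℝ → ℝ)} (hK : HK K) {y : ℝ → ℝ} {f g : ℝ → ℝ} (hf : f ∈ Rg K y)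
    (hg : g ∈ K) : (fun x => f x * g x) ∈ Rg K y := by
  obtain ⟨n, a, ha, hfa⟩ := hf
  refine ⟨n, fun i x => a i x * g x, fun i => hK.mul _ (ha i) _ hg, ?_⟩
  filter_upwards [hfa] with x h1
  rw [h1, Finset.sum_mul]
  refine Finset.sum_congr rfl fun i _ => ?_
  ring

theorem Rg_shift {K : Set (ℝ → ℝ)} (hK : HK K) {y : ℝ → ℝ} {f : ℝ → ℝ} (hf : f ∈ Rg K y) :
    (fun x => f x * y x) ∈ Rg K y := by
  obtain ⟨n, a, ha, hfa⟩ := hf
  refine ⟨n + 1, fun i => if i = 0 then fun _ => 0 else a (i - 1), ?_, ?_⟩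
  · intro i
    by_cases h : i = 0
    · simp only [h, if_true]
      exact hK.const 0
    · simp only [h, if_false]
      exact ha (i - 1)
  · filter_upwards [hfa] with x h1
    rw [h1, Finset.sum_range_succ', Finset.sum_mul]
    simp only [if_true, zero_mul, add_zero, Nat.succ_ne_zero, if_false, Nat.add_sub_cancel]
    refine Finset.sum_congr rfl fun i _ => ?_
    ring

theorem Rg_shift_pow {K : Set (ℝ → ℝ)} (hK : HK K) {y : ℝ → ℝ} {f : ℝ → ℝ} (hf : f ∈ Rg K y)
    (j : ℕ) : (fun x => f x * y x ^ j) ∈ Rg K y := by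
  induction j with
  | zero => exact Rg_congr hf (Eventually.of_forall fun x => by simp)
  | succ j ih => exact Rg_congr (Rg_shift hK ih) (Eventually.of_forall fun x => by ring)

theorem Rg_mul {K : Set (ℝ → ℝ)} (hK : HK K) {y : ℝ → ℝ} {f g : ℝ → ℝ} (hf : f ∈ Rg K y)
    (hg : g ∈ Rg K y) : (fun x => f x * g x) ∈ Rg K y := by
  obtain ⟨m, b, hb, hgb⟩ := hg
  have h : ∀ m : ℕ, (fun x => f x * ∑ i ∈ Finset.range m, b i x * y x ^ i) ∈ Rg K y := by
    intro m
    induction m with
    | zero =>
      exact Rg_congr (Rg_of_mem hK (hK.const 0)) (Eventually.of_forall fun x => by simp)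
    | succ m ih =>
      refine Rg_congr (Rg_add hK ih (Rg_shift_pow hK (Rg_mul_left hK hf (hb m)) m))
        (Eventually.of_forall fun x => ?_)
      rw [Finset.sum_range_succ, mul_add]
      ring
  refine Rg_congr (h m) ?_
  filter_upwards [hgb] with x h1
  rw [h1]

theorem hEB : StEB := by
  intro hFR K hK y s hs hy hyd
  obtain ⟨F, hF, hRF⟩ := hFR (Rg K y) (fun f hf g h => Rg_congr hf h)
    (fun c => Rg_of_mem hK (hK.const c)) (fun f hf g hg => Rg_add hK hf hg)
    (fun f hf g hg => Rg_mul hK hf hg)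
    (by
      rintro f ⟨n, a, ha, hfa⟩
      refine (sg_poly hK hs hy hyd n a ha).congr ?_
      filter_upwards [hfa] with x h1
      exact h1.symm)
    (by
      rintro f ⟨n, a, ha, hfa⟩
      obtain ⟨c, hc, hcd⟩ := deriv_poly hK hs hyd n a ha
      refine ⟨fun x => ∑ i ∈ Finset.range n, c i x * y x ^ i,
        ⟨n, c, hc, Eventually.of_forall fun x => rfl⟩, ?_⟩
      filter_upwards [hcd, eventually_nhds hfa] with x h1 h2
      exact h1.congr_of_eventuallyEq h2)
  refine ⟨F, hF, fun f hf => hRF (Rg_of_mem hK hf), hRF ?_⟩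
  exact Rg_congr (Rg_shift hK (Rg_of_mem hK (hK.const 1)))
    (Eventually.of_forall fun x => by simp)

end Pool.Agent.Helper74.HG
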